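import Mathlib

namespace Pool.Agent.Results.MP_141d57_co.Q1
open Polynomial Finset

/-- The toric `g`-contribution polynomial `g_{n,j}`. -/
noncomputable def g (n j : ℕ) : ℝ[X] :=
  ∑ k ∈ range (min (n / 2) (n - j) + 1),
    C ((catalan (n - k - j) : ℝ) * ((n - k).choose k : ℝ)) * (X - 1) ^ k

lemma gl (P : ℂ[X]) (h : ∀ z, P.eval z = 0 → z.im = 0) (h0 : derivative P ≠ 0) :
    ∀ z, (derivative P).eval z = 0 → z.im = 0 := by
  intro z hz
  have hd : 0 < P.degree := by
    by_contra hc
    rw [eq_C_of_degree_le_zero (not_lt.1 hc)] at h0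
    simp at h0
  have h1 : z ∈ (derivative P).rootSet ℂ := by
    rw [mem_rootSet]; exact ⟨h0, by simpa using hz⟩
  have h2 := rootSet_derivative_subset_convexHull_rootSet hd h1
  have h3 : convexHull ℝ (P.rootSet ℂ) ⊆ {w : ℂ | w.im = 0} := by
    apply convexHull_min
    · intro w hw
      rw [mem_rootSet] at hw
      exact h w (by simpa using hw.2)
    · intro x hx y hy a b _ _ _
      simp only [Set.mem_setOf_eq] at hx hy ⊢
      simp [hx, hy]
  exact h3 h2

lemma gl_iter (r : ℕ) (P : ℂ[X]) (h : ∀ z, P.eval z = 0 → z.im = 0)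
    (h0 : derivative^[r] P ≠ 0) : ∀ z, (derivative^[r] P).eval z = 0 → z.im = 0 := by
  induction r with
  | zero => exact h
  | succ r ih =>
    rw [Function.iterate_succ_apply'] at h0 ⊢
    apply gl _ (ih _) h0
    intro e; rw [e] at h0; simp at h0

lemma iter_sum {R : Type*} [CommRing R] (r : ℕ) (s : Finset ℕ) (c : ℕ → R) (e : ℕ → ℕ) :
    derivative^[r] (∑ k ∈ s, C (c k) * X ^ e k : R[X]) =
      ∑ k ∈ s, C (c k * (e k).descFactorial r) * X ^ (e k - r) := by
  rw [iterate_derivative_sum]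
  apply Finset.sum_congr rfl; intro k _
  rw [iterate_derivative_C_mul, iterate_derivative_X_pow_eq_C_mul, C_mul, mul_assoc]

lemma sum_ne (m : ℕ) (c : ℕ → ℂ) (e : ℕ → ℕ) (h0 : c 0 ≠ 0) (he : ∀ k, 0 < k → k ≤ m → e k ≠ e 0) :
    (∑ k ∈ range (m + 1), C (c k) * X ^ e k : ℂ[X]) ≠ 0 := by
  intro h
  have := congrArg (fun p => coeff p (e 0)) h
  simp only [finset_sum_coeff, coeff_C_mul_X_pow, coeff_zero] at this
  rw [Finset.sum_eq_single 0] at this
  · simp at this; exact h0 this
  · intro k hk hk0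
    rw [if_neg]
    exact (he k (Nat.pos_of_ne_zero hk0) (by simpa [Nat.lt_succ_iff] using hk)).symm
  · simp

/-- pass from the even/odd form to the squared variable -/
lemma square (n : ℕ) (c : ℕ → ℂ)
    (h : ∀ t : ℂ, ∑ k ∈ range (n / 2 + 1), c k * t ^ (n - 2 * k) = 0 → t.im = 0) (s : ℂ)
    (hs : ∑ k ∈ range (n / 2 + 1), c k * s ^ (n - k) = 0) : s.im = 0 := by
  obtain ⟨t, rfl⟩ := IsAlgClosed.exists_pow_nat_eq s (n := 2) (by norm_num)
  have e : ∑ k ∈ range (n / 2 + 1), c k * (t ^ 2) ^ (n - k) =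
      t ^ n * ∑ k ∈ range (n / 2 + 1), c k * t ^ (n - 2 * k) := by
    rw [Finset.mul_sum]
    apply Finset.sum_congr rfl; intro k hk
    have : k ≤ n / 2 := by simpa [Nat.lt_succ_iff] using hk
    rw [← pow_mul, show 2 * (n - k) = n + (n - 2 * k) by omega, pow_add]; ring
  rw [e, mul_eq_zero] at hs
  have ht : t.im = 0 := by
    rcases hs with h1 | h1
    · rw [pow_eq_zero_iff'] at h1; rw [h1.1]; simp
    · exact h t h1
  simp [sq, ht]

lemma reverse (m e : ℕ) (hm : m ≤ e) (a : ℕ → ℂ)
    (h : ∀ s : ℂ, ∑ k ∈ range (m + 1), (a k * (-1) ^ k) * s ^ (e - k) = 0 → s.im = 0) (y : ℂ)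
    (hy : ∑ k ∈ range (m + 1), a k * y ^ k = 0) : y.im = 0 := by
  by_cases h0 : y = 0
  · simp [h0]
  have e1 : ∑ k ∈ range (m + 1), (a k * (-1) ^ k) * (-y⁻¹) ^ (e - k) =
      (-y⁻¹) ^ e * ∑ k ∈ range (m + 1), a k * y ^ k := by
    rw [Finset.mul_sum]
    apply Finset.sum_congr rfl; intro k hk
    have : k ≤ m := by simpa [Nat.lt_succ_iff] using hk
    obtain ⟨d, rfl⟩ : ∃ d, e = k + d := ⟨e - k, by omega⟩
    have e2 : (-y⁻¹) ^ k * y ^ k = (-1) ^ k := by rw [← mul_pow]; congr 1; field_simp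
    rw [Nat.add_sub_cancel_left, pow_add, ← e2]; ring
  have h1 := h (-y⁻¹) (by rw [e1, hy, mul_zero])
  have h2 : (y⁻¹).im = 0 := by simpa using h1
  have h3 : y = (y⁻¹)⁻¹ := (inv_inv y).symm
  rw [h3, Complex.inv_im, h2]; simp

lemma binom {R : Type*} [CommRing R] (N : ℕ) : ((X : R[X]) ^ 2 - 1) ^ N =
    ∑ k ∈ range (N + 1), C ((N.choose k : R) * (-1) ^ k) * X ^ (2 * N - 2 * k) := by
  rw [sub_eq_neg_add, add_pow]
  apply Finset.sum_congr rfl; intro k _
  rw [← pow_mul, Nat.mul_sub]
  simp; ring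

lemma cat_eq (m : ℕ) : (catalan m : ℂ) = (2 * m).factorial / (m.factorial * (m + 1).factorial) := by
  have h := succ_mul_catalan_eq_centralBinom m
  have h1 : ((m + 1 : ℕ) : ℂ) * catalan m = ((2 * m).choose m : ℂ) := by
    rw [← Nat.centralBinom_eq_two_mul_choose]; exact_mod_cast h
  rw [Nat.cast_choose ℂ (by omega), show 2 * m - m = m by omega] at h1
  have h2 : ((m + 1 : ℕ) : ℂ) ≠ 0 := Nat.cast_ne_zero.2 (by omega)
  have h3 : (m.factorial : ℂ) ≠ 0 := Nat.cast_ne_zero.2 m.factorial_ne_zero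
  rw [Nat.factorial_succ, Nat.cast_mul]
  field_simp at h1 ⊢
  rw [← h1]

lemma desc_eq (a b : ℕ) : ((a + b).descFactorial b : ℂ) = (a + b).factorial / a.factorial := by
  have h := Nat.factorial_mul_descFactorial (n := a + b) (k := b) (by omega)
  rw [Nat.add_sub_cancel] at h
  have h3 : (a.factorial : ℂ) ≠ 0 := Nat.cast_ne_zero.2 a.factorial_ne_zero
  rw [eq_div_iff h3, mul_comm]; exact_mod_cast h

lemma case_pos (n j : ℕ) (hj : 1 ≤ j) (hjn : j ≤ n / 2) (s : ℂ)
    (hs : ∑ k ∈ range (n / 2 + 1), ((catalan (n - k - j) : ℂ) * ((n - k).choose k : ℂ) * (-1) ^ k) *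
      s ^ (n - (j - 1) - k) = 0) : s.im = 0 := by
  set b : ℕ → ℂ := fun k =>
    (((n - j).choose k : ℂ) * (-1) ^ k) * (2 * (n - j) - 2 * k).descFactorial (n - 2 * j) with hb
  have hb0 : b 0 ≠ 0 := by
    simp only [hb]
    simp [Nat.descFactorial_eq_zero_iff_lt]; omega
  have e1 : derivative^[n - 2 * j] (((X : ℂ[X]) ^ 2 - 1) ^ (n - j)) =
      ∑ k ∈ range (n / 2 + 1), C (b k) * X ^ (n - 2 * k) := by
    rw [binom, iter_sum]
    symm
    apply Finset.sum_subset_zero_on_sdiff
    · intro k hk; simp at hk ⊢; omega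
    · intro k hk
      simp at hk
      rw [Nat.descFactorial_eq_zero_iff_lt.2 (by omega)]; simp
    · intro k hk
      simp at hk
      congr 2; omega
  have r1 := gl_iter (n - 2 * j) (((X : ℂ[X]) ^ 2 - 1) ^ (n - j)) (by
    intro z hz
    simp only [eval_pow, eval_sub, eval_X, eval_one, pow_eq_zero_iff'] at hz
    have : (z - 1) * (z + 1) = 0 := by rw [← hz.1]; ring
    rcases mul_eq_zero.1 this with h | h
    · rw [sub_eq_zero.1 h]; simp
    · rw [eq_neg_of_add_eq_zero_left h]; simp) (by
    rw [e1]; exact sum_ne _ _ _ hb0 (fun k h1 h2 => by omega))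
  rw [e1] at r1
  have r2 := square n b (fun t ht => r1 t (by simpa [eval_finset_sum] using ht))
  have r3 := gl_iter (j - 1) (∑ k ∈ range (n / 2 + 1), C (b k) * X ^ (n - k))
    (fun z hz => r2 z (by simpa [eval_finset_sum] using hz)) (by
      rw [iter_sum]
      refine sum_ne _ (fun k => b k * (n - k).descFactorial (j - 1)) (fun k => n - k - (j - 1))
        (mul_ne_zero hb0 ?_) (fun k h1 h2 => by omega)
      simp [Nat.descFactorial_eq_zero_iff_lt]; omega)
  rw [iter_sum] at r3
  apply r3 s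
  rw [eval_finset_sum, ← mul_zero ((n - j).factorial : ℂ), ← hs, Finset.mul_sum]
  apply Finset.sum_congr rfl; intro k hk
  have hk' : k ≤ n / 2 := by simpa [Nat.lt_succ_iff] using hk
  rw [eval_mul, eval_C, eval_pow, eval_X, show n - k - (j - 1) = n - (j - 1) - k by omega,
    ← mul_assoc]
  congr 1
  simp only [hb]
  have d1 := desc_eq (n - 2 * k) (n - 2 * j)
  have d2 := desc_eq (n - k - j + 1) (j - 1)
  rw [show n - 2 * k + (n - 2 * j) = 2 * (n - k - j) by omega] at d1
  rw [show n - k - j + 1 + (j - 1) = n - k by omega] at d2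
  rw [show 2 * (n - j) - 2 * k = 2 * (n - k - j) by omega, d1, d2, cat_eq,
    Nat.cast_choose ℂ (show k ≤ n - j by omega), Nat.cast_choose ℂ (show k ≤ n - k by omega),
    show n - j - k = n - k - j by omega, show n - k - k = n - 2 * k by omega]
  have f : ∀ m : ℕ, (m.factorial : ℂ) ≠ 0 := fun m => Nat.cast_ne_zero.2 m.factorial_ne_zero
  field_simp

lemma alt_step (f : ℝ[X]) (r : ℕ) (x : ℕ → ℝ) (hx : ∀ i < r, x i < x (i + 1)) (h0 : -1 ≤ x 0)
    (h1 : x r ≤ 1) (hs : ∀ i ≤ r, 0 < (-1) ^ i * f.eval (x i))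
    (hl : 0 < (derivative f).eval (-1)) (hr : 0 < (-1) ^ (r + 1) * (derivative f).eval 1) :
    ∃ y : ℕ → ℝ, (∀ i < r + 1, y i < y (i + 1)) ∧ -1 ≤ y 0 ∧ y (r + 1) ≤ 1 ∧
      ∀ i ≤ r + 1, 0 < (-1) ^ i * (derivative f).eval (y i) := by
  have mv : ∀ i, ∃ c, i < r → x i < c ∧ c < x (i + 1) ∧
      0 < (-1) ^ (i + 1) * (derivative f).eval c := by
    intro i
    by_cases hi : i < r
    · obtain ⟨c, hc, e⟩ := exists_hasDerivAt_eq_slope (fun t => f.eval t)
        (fun t => (derivative f).eval t) (hx i hi) f.continuous.continuousOn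
        (fun t _ => f.hasDerivAt t)
      refine ⟨c, fun _ => ⟨hc.1, hc.2, ?_⟩⟩
      rw [e, ← mul_div_assoc]
      apply div_pos _ (sub_pos.2 (hx i hi))
      have a1 := hs i hi.le
      have a2 := hs (i + 1) hi
      rw [pow_succ] at a2 ⊢
      linarith
    · exact ⟨0, fun h => absurd h hi⟩
  choose c hc using mv
  have mono : ∀ i ≤ r, x 0 ≤ x i ∧ x (r - i) ≤ x r := by
    intro i
    induction i with
    | zero => simp
    | succ i ih =>
      intro hi
      have := ih (by omega)
      have a1 := hx i (by omega)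
      have a2 := hx (r - (i + 1)) (by omega)
      rw [show r - (i + 1) + 1 = r - i by omega] at a2
      constructor <;> linarith [this.1, this.2]
  refine ⟨fun i => if i = 0 then -1 else if i ≤ r then c (i - 1) else 1, ?_, by simp, by simp, ?_⟩
  · intro i hi
    by_cases i0 : i = 0
    · subst i0
      by_cases hr0 : 1 ≤ r
      · have := hc 0 hr0
        simp [hr0]; linarith [this.1]
      · simp [hr0]
    · have hi' : i ≤ r := by omega
      have a1 := hc (i - 1) (by omega)
      rw [show i - 1 + 1 = i by omega] at a1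
      by_cases hr1 : i + 1 ≤ r
      · have a2 := hc i hr1
        simp [i0, hi', hr1]; linarith [a1.2.1, a2.1]
      · have : i = r := by omega
        subst this
        simp [i0]; linarith [a1.2.1]
  · intro i hi
    by_cases i0 : i = 0
    · subst i0; simpa using hl
    · by_cases hi' : i ≤ r
      · have a1 := hc (i - 1) (by omega)
        rw [show i - 1 + 1 = i by omega] at a1
        simpa [i0, hi'] using a1.2.2
      · have : i = r + 1 := by omega
        subst this
        simpa using hr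

lemma alt_roots (f : ℝ[X]) (n : ℕ) (hd : f.natDegree ≤ n) (x : ℕ → ℝ)
    (hx : ∀ i < n, x i < x (i + 1)) (hs : ∀ i ≤ n, 0 < (-1) ^ i * f.eval (x i)) (z : ℂ)
    (hz : aeval z f = 0) : z.im = 0 := by
  classical
  have iv : ∀ i, ∃ c, i < n → x i < c ∧ c < x (i + 1) ∧ f.eval c = 0 := by
    intro i
    by_cases hi : i < n
    · have a1 := hs i hi.le
      have a2 := hs (i + 1) hi
      rw [pow_succ] at a2
      have := intermediate_value_Ioo' (hx i hi).le
        (f := fun t => (-1) ^ i * f.eval t) (by fun_prop)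
      obtain ⟨c, hc, e⟩ := this (show (0:ℝ) ∈ Set.Ioo _ _ from ⟨by linarith, a1⟩)
      exact ⟨c, fun _ => ⟨hc.1, hc.2, (mul_eq_zero.1 e).resolve_left (by positivity)⟩⟩
    · exact ⟨0, fun h => absurd h hi⟩
  choose c hc using iv
  have mono : StrictMonoOn c (Set.Iio n) := by
    apply strictMonoOn_of_lt_succ Set.ordConnected_Iio
    intro a _ ha hb
    have := hc a ha
    have b := hc (a + 1) hb
    exact this.2.1.trans b.1
  by_contra him
  have hf : f.map (algebraMap ℝ ℂ) = 0 := by
    apply eq_zero_of_natDegree_lt_card_of_eval_eq_zero' _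
      (insert z ((range n).image (fun i => (c i : ℂ))))
    · intro w hw
      rw [eval_map_algebraMap]
      rcases Finset.mem_insert.1 hw with rfl | hw
      · exact hz
      · obtain ⟨i, hi, rfl⟩ := Finset.mem_image.1 hw
        have := (hc i (Finset.mem_range.1 hi)).2.2
        rw [← Complex.coe_algebraMap, aeval_algebraMap_apply, coe_aeval_eq_eval, this]; simp
    · rw [Finset.card_insert_of_notMem, Finset.card_image_of_injOn, Finset.card_range]
      · exact Nat.lt_succ_of_le (natDegree_map_le.trans hd)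
      · intro i hi j hj hij
        exact mono.injOn (by simpa using hi) (by simpa using hj) (Complex.ofReal_injective hij)
      · intro hw
        obtain ⟨i, _, rfl⟩ := Finset.mem_image.1 hw
        simp at him
  rw [Polynomial.map_eq_zero_iff (algebraMap ℝ ℂ).injective] at hf
  have := hs 0 (Nat.zero_le n)
  simp [hf] at this

lemma case_zero (n : ℕ) (t : ℂ)
    (ht : ∑ k ∈ range (n / 2 + 1), ((catalan (n - k) : ℂ) * ((n - k).choose k : ℂ) * (-1) ^ k) *
      t ^ (n - 2 * k) = 0) : t.im = 0 := by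
  set p : ℝ[X] := ∑ k ∈ range (n + 1),
    C ((-1) ^ n * (((n + 1).choose k : ℝ) * (-1) ^ k)) * X ^ (2 * n - 2 * k) with hp
  have h0 : X ^ 2 * p - 1 = C ((-1) ^ n) * (X ^ 2 - 1) ^ (n + 1) := by
    rw [binom, Finset.sum_range_succ, mul_add, hp, Finset.mul_sum, Finset.mul_sum, sub_eq_add_neg]
    congr 1
    · apply Finset.sum_congr rfl; intro k hk
      have : k ≤ n := by simpa [Nat.lt_succ_iff] using hk
      rw [show 2 * (n + 1) - 2 * k = 2 + (2 * n - 2 * k) by omega, pow_add, C_mul]; ring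
    · rw [Nat.sub_self, pow_zero, mul_one, ← C_mul, Nat.choose_self, pow_succ, Nat.cast_one,
        one_mul, ← mul_assoc, ← mul_pow]
      simp
  have dv : ∀ r, ((X : ℝ[X]) ^ 2 - 1) ^ (n + 1 - r) ∣
      X ^ (r + 2) * derivative^[r] p - C ((-1) ^ r * ((r + 1).factorial : ℝ)) := by
    intro r
    induction r with
    | zero => simp only [zero_add, Function.iterate_zero_apply, pow_zero, Nat.factorial_one,
        Nat.cast_one, mul_one, C_1, Nat.sub_zero, h0]; exact Dvd.intro_left _ rfl
    | succ r ih =>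
      have a1 := pow_sub_one_dvd_derivative_of_pow_dvd ih
      have a2 := (pow_dvd_pow ((X : ℝ[X]) ^ 2 - 1) (Nat.sub_le (n + 1 - r) 1)).trans ih
      have a3 := dvd_sub (a1.mul_left X) (a2.mul_left (C ((r : ℝ) + 2)))
      rw [show n + 1 - (r + 1) = n + 1 - r - 1 by omega, Function.iterate_succ_apply']
      refine dvd_trans a3 (dvd_of_eq ?_)
      rw [Nat.factorial_succ (r + 1)]
      simp only [derivative_sub, derivative_mul, derivative_X_pow, derivative_C, map_mul, map_add,
        map_pow, map_neg, map_one, Nat.cast_mul, Nat.cast_add, Nat.cast_one, Nat.cast_ofNat,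
        map_natCast, map_ofNat, show r + 2 - 1 = r + 1 by omega]
      simp only [derivative_pow, derivative_neg, derivative_one, derivative_natCast]
      ring
  have ev : ∀ r ≤ n, ∀ s : ℝ, s ^ 2 = 1 →
      s ^ (r + 2) * (derivative^[r] p).eval s = (-1) ^ r * ((r + 1).factorial : ℝ) := by
    intro r hr s hs
    obtain ⟨q, hq⟩ := dv r
    have := congrArg (eval s) hq
    simp only [eval_sub, eval_mul, eval_pow, eval_X, eval_C, eval_one, hs, sub_self] at this
    rw [zero_pow (by omega), zero_mul] at this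
    linarith
  have fp : ∀ r : ℕ, (0:ℝ) < (r + 1).factorial := fun r => by positivity
  have sq' : ∀ r : ℕ, ((-1:ℝ) ^ r) * (-1) ^ r = 1 := fun r => by rw [← mul_pow]; simp
  have el : ∀ r ≤ n, 0 < (derivative^[r] p).eval (-1) := by
    intro r hr
    have := ev r hr (-1) (by norm_num)
    rw [pow_add, neg_one_sq, mul_one] at this
    rw [mul_left_cancel₀ (by positivity) this]; exact fp r
  have er : ∀ r ≤ n, 0 < (-1) ^ r * (derivative^[r] p).eval 1 := by
    intro r hr
    have := ev r hr 1 (by norm_num)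
    rw [one_pow, one_mul] at this
    rw [this, ← mul_assoc, sq', one_mul]; exact fp r
  have alt : ∀ r ≤ n, ∃ y : ℕ → ℝ, (∀ i < r, y i < y (i + 1)) ∧ -1 ≤ y 0 ∧ y r ≤ 1 ∧
      ∀ i ≤ r, 0 < (-1) ^ i * (derivative^[r] p).eval (y i) := by
    intro r
    induction r with
    | zero =>
      intro _
      refine ⟨fun _ => -1, by simp, le_rfl, by norm_num, ?_⟩
      intro i hi
      rw [Nat.le_zero.1 hi]; simpa using el 0 (Nat.zero_le n)
    | succ r ih =>
      intro hr
      obtain ⟨x, h1, h2, h3, h4⟩ := ih (by omega)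
      have a1 := el (r + 1) hr
      have a2 := er (r + 1) hr
      rw [Function.iterate_succ_apply'] at a1 a2 ⊢
      exact alt_step _ r x h1 h2 h3 h4 a1 a2
  obtain ⟨x, h1, -, -, h4⟩ := alt n le_rfl
  apply alt_roots (derivative^[n] p) n _ x h1 h4
  · rw [hp, iter_sum, map_sum, ← mul_zero ((-1) ^ n * ((n + 1).factorial : ℂ)), ← ht,
      Finset.mul_sum]
    symm
    apply Finset.sum_subset_zero_on_sdiff
    · intro k hk; simp at hk ⊢; omega
    · intro k hk
      simp at hk
      rw [Nat.descFactorial_eq_zero_iff_lt.2 (by omega)]; simp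
    · intro k hk
      have hk' : k ≤ n / 2 := by simpa [Nat.lt_succ_iff] using hk
      have d1 := desc_eq (n - 2 * k) n
      rw [show n - 2 * k + n = 2 * (n - k) by omega] at d1
      simp only [map_mul, map_pow, map_neg, map_one, map_natCast, aeval_X]
      rw [show 2 * n - 2 * k = 2 * (n - k) by omega, d1, cat_eq,
        Nat.cast_choose ℂ (show k ≤ n + 1 by omega), Nat.cast_choose ℂ (show k ≤ n - k by omega),
        show n + 1 - k = n - k + 1 by omega, show n - k - k = n - 2 * k by omega,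
        show 2 * (n - k) - n = n - 2 * k by omega]
      have f : ∀ m : ℕ, (m.factorial : ℂ) ≠ 0 := fun m => Nat.cast_ne_zero.2 m.factorial_ne_zero
      have f1 := f (n - k)
      have f2 := f (n - k + 1)
      have f3 := f k
      have f4 := f (n - 2 * k)
      field_simp
  · refine (natDegree_iterate_derivative _ _).trans ?_
    have : p.natDegree ≤ 2 * n := by
      apply natDegree_sum_le_of_forall_le
      intro k _
      exact (natDegree_C_mul_X_pow_le _ _).trans (Nat.sub_le _ _)
    omega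

theorem result (n j : ℕ) (hj : j ≤ n / 2) :
    g n j ≠ 0 ∧ ∀ z : ℂ, aeval z (g n j) = 0 → z.im = 0 := by
  have hm : min (n / 2) (n - j) = n / 2 := by omega
  constructor
  · intro h
    have := congrArg (eval 1) h
    rw [g, eval_finset_sum, Finset.sum_eq_single 0] at this
    · simp at this
      have h2 := succ_mul_catalan_eq_centralBinom (n - j)
      rw [this] at h2
      exact (Nat.centralBinom_ne_zero _) (by simpa using h2.symm)
    · intro k _ hk; simp [hk]
    · simp
  · intro z hz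
    have hz' : ∑ k ∈ range (n / 2 + 1),
        ((catalan (n - k - j) : ℂ) * ((n - k).choose k : ℂ)) * (z - 1) ^ k = 0 := by
      rw [g, hm, map_sum] at hz
      simpa using hz
    have : (z - 1).im = 0 := by
      rcases Nat.eq_zero_or_pos j with rfl | hj1
      · exact reverse (n / 2) n (by omega) _ (square n _ (case_zero n)) _ hz'
      · exact reverse (n / 2) (n - (j - 1)) (by omega) _ (case_pos n j hj1 hj) _ hz'
    simpa using this

end Pool.Agent.Results.MP_141d57_co.Q1
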